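import Pool.Agent.Q274.BKC.Stm2
import Pool.Agent.Q15.GRNT
import Pool.Agent.W401.Cheb.Frob

/-!
# Project BKC of helper274, job 20 (WTJ): the characters of weight `i`
-/

set_option autoImplicit false
set_option linter.unusedSectionVars false
set_option linter.unusedVariables false

namespace Pool.Agent.Q149.BKC

open NumberField IsDedekindDomain
open Pool.Agent.Q274.BKC (OB Dec Ine val Unr Res Cl IsWeight S_CLS S_INT S_QR S_PF S_H1 S_H2 S_WTJ)
open Pool.Agent.W401.Cheb (GK IsFrob IsInert)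
open Pool.Agent.W401.Frob (tr mem_tr tr_max tr_comap frob_conj exists_frob smulComm isInv smul_alg)

/-! ### units of `ℤ_2` -/

theorem zmod2_unit : ∀ u : (ZMod 2)ˣ, (u : ZMod 2) = 1 := by decide

theorem toZMod_unit (x : ℤ_[2]ˣ) : PadicInt.toZMod (x : ℤ_[2]) = 1 :=
  zmod2_unit (Units.map (PadicInt.toZMod (p := 2)).toMonoidHom x)

theorem tors {x : ℤ_[2]ˣ} {n : ℕ} (hn : Odd n) (h : x ^ n = 1) : x = 1 := by
  have h1 : ((x : ℤ_[2]) - 1) * ∑ i ∈ Finset.range n, (x : ℤ_[2]) ^ i = 0 := by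
    rw [mul_geom_sum, ← Units.val_pow_eq_pow_val, h, Units.val_one, sub_self]
  rcases mul_eq_zero.1 h1 with h2 | h2
  · exact Units.ext (sub_eq_zero.1 h2)
  · exfalso
    have h3 := congrArg (PadicInt.toZMod (p := 2)) h2
    rw [map_sum, map_zero] at h3
    have h4 : ∀ i ∈ Finset.range n, PadicInt.toZMod ((x : ℤ_[2]) ^ i) = 1 := fun i _ => by
      rw [map_pow, toZMod_unit, one_pow]
    rw [Finset.sum_congr rfl h4, Finset.sum_const, Finset.card_range, nsmul_one] at h3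
    have h5 : ((2 : ℕ) : ℕ) ∣ n := (ZMod.natCast_eq_zero_iff n 2).1 h3
    obtain ⟨k, hk⟩ := hn
    omega

/-! ### reduction modulo `4` -/

/-- reduction modulo four -/
noncomputable def r4 : ℤ_[2] →+* ZMod 4 := PadicInt.toZModPow (p := 2) 2

theorem r4_eq_zero {x : ℤ_[2]} : r4 x = 0 ↔ (4 : ℤ_[2]) ∣ x := by
  have h := PadicInt.ker_toZModPow (p := 2) 2
  have h1 : x ∈ RingHom.ker (PadicInt.toZModPow (p := 2) 2) ↔ x ∈ Ideal.span {((2 : ℕ) : ℤ_[2]) ^ 2} := by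
    rw [h]
  rw [RingHom.mem_ker, Ideal.mem_span_singleton] at h1
  have h2 : ((2 : ℕ) : ℤ_[2]) ^ 2 = 4 := by norm_num
  rw [h2] at h1
  exact h1

theorem r4_norm {x : ℤ_[2]} : ‖x‖ ≤ 1 / 4 ↔ r4 x = 0 := by
  rw [r4_eq_zero]
  have h := PadicInt.norm_le_pow_iff_mem_span_pow (p := 2) x 2
  rw [Ideal.mem_span_singleton] at h
  have h2 : ((2 : ℕ) : ℤ_[2]) ^ 2 = 4 := by norm_num
  rw [h2] at h
  rw [← h]
  norm_num

theorem zmod4_sq : ∀ u : (ZMod 4)ˣ, (u : ZMod 4) ^ 2 = 1 := by decide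

theorem r4_sq {x : ℤ_[2]} (hx : IsUnit x) : r4 x ^ 2 = 1 := by
  obtain ⟨u, rfl⟩ := hx
  exact zmod4_sq (Units.map r4.toMonoidHom u)

theorem zmod4_isUnit {x : ZMod 4} (h : x ^ 2 = 1) : IsUnit x :=
  IsUnit.of_mul_eq_one x (by rw [← sq, h])

theorem zmod4_pow {x : ZMod 4} (h : x ^ 2 = 1) {n : ℕ} (hn : Odd n) : x ^ n = x := by
  obtain ⟨k, rfl⟩ := hn
  rw [pow_add, pow_mul, h, one_pow, one_mul, pow_one]

/-- the Jacobi symbol of `-1` modulo `4` -/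
theorem jac_neg {N : ℕ} (hN : Odd N) : ((jacobiSym (-1) N : ℤ) : ZMod 4) = (N : ZMod 4) := by
  rw [jacobiSym.at_neg_one hN, ZMod.χ₄_nat_eq_if_mod_four]
  have h1 : N % 2 = 1 := Nat.odd_iff.1 hN
  have h2 : N % 4 = 1 ∨ N % 4 = 3 := by omega
  have h3 : ((N : ℕ) : ZMod 4) = ((N % 4 : ℕ) : ZMod 4) := by simp
  rcases h2 with h2 | h2
  · rw [h3, h2]; simp [h1]
  · rw [h3, h2]; simp [h1]; decide

/-! ### the ring of integers -/

section
variable {K : Type} [Field K] [NumberField K]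

theorem two_not_unit : ¬ IsUnit (2 : 𝓞 K) := by
  intro h
  have h1 : IsUnit (algebraMap ℤ (𝓞 K) 2) := by
    rw [map_ofNat]
    exact h
  have h2 := isUnit_of_map_unit (algebraMap ℤ (𝓞 K)) _ h1
  rw [Int.isUnit_iff] at h2
  omega

theorem not_mem_of_dvd {I : Ideal (𝓞 K)} {m n : ℕ} (h : m ∣ n) (hn : (n : 𝓞 K) ∉ I) :
    (m : 𝓞 K) ∉ I := by
  obtain ⟨k, rfl⟩ := h
  intro h1
  apply hn
  rw [Nat.cast_mul]
  exact I.mul_mem_right _ h1

theorem odd_add {q : ℕ} {s : K} (hq : q % 8 = 7) (hs : s ^ 2 = -(q : K))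
    {v : HeightOneSpectrum (𝓞 K)} {n : ℕ} {A B : ℤ} {β : 𝓞 K} (h2 : (2 : 𝓞 K) ∉ v.asIdeal)
    (hβ : v.asIdeal ^ n = Ideal.span {β}) (hAB : (β : K) = A + B * s) : Odd (A + B) := by
  by_contra hne
  rw [Int.not_odd_iff_even] at hne
  obtain ⟨k, hk⟩ := hne
  obtain ⟨m, hm⟩ : ∃ m : ℕ, q = 8 * m + 7 := ⟨q / 8, by omega⟩
  have h20 : (2 : K) ≠ 0 := two_ne_zero
  have hω : IsIntegral ℤ ((1 + s) / 2) := by
    have hm1 : (Polynomial.X ^ 2 - Polynomial.X + Polynomial.C (2 * m + 2 : ℤ)).Monic := by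
      monicity!
    refine ⟨_, hm1, ?_⟩
    simp only [Polynomial.eval₂_add, Polynomial.eval₂_sub, Polynomial.eval₂_pow,
      Polynomial.eval₂_X, Polynomial.eval₂_C]
    have h4 : (algebraMap ℤ K) (2 * m + 2 : ℤ) = 2 * m + 2 := by
      simp
    rw [h4]
    have h5 : s ^ 2 = -(8 * m + 7 : K) := by
      rw [hs, hm]
      push_cast
      ring
    field_simp
    linear_combination h5
  let ω : 𝓞 K := ⟨(1 + s) / 2, hω⟩
  have hω' : (ω : K) = (1 + s) / 2 := rfl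
  have hγ : β = 2 * (((k - B : ℤ) : 𝓞 K) + (B : 𝓞 K) * ω) := by
    apply RingOfIntegers.ext
    have h6 : ((2 * (((k - B : ℤ) : 𝓞 K) + (B : 𝓞 K) * ω) : 𝓞 K) : K) =
        2 * (((k - B : ℤ) : K) + (B : K) * ((1 + s) / 2)) := by
      rw [← hω']
      change algebraMap (𝓞 K) K (2 * (((k - B : ℤ) : 𝓞 K) + (B : 𝓞 K) * ω)) =
        2 * (((k - B : ℤ) : K) + (B : K) * algebraMap (𝓞 K) K ω)
      rw [map_mul, map_add, map_mul, map_ofNat, map_intCast, map_intCast]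
    have h7 : (A : K) + B = k + k := by exact_mod_cast hk
    rw [h6, hAB]
    push_cast
    field_simp
    linear_combination h7
  obtain ⟨P, hP, hPle⟩ := Ideal.exists_le_maximal (Ideal.span {(2 : 𝓞 K)}) (by
    rw [Ne, Ideal.span_singleton_eq_top]
    exact two_not_unit)
  have h8 : v.asIdeal ^ n ≤ P := by
    rw [hβ, hγ]
    refine le_trans ?_ hPle
    rw [Ideal.span_singleton_le_span_singleton]
    exact dvd_mul_right _ _
  have h9 : v.asIdeal ≤ P := hP.isPrime.le_of_pow_le h8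
  have h10 : v.asIdeal = P := v.isMaximal.eq_of_le hP.ne_top h9
  apply h2
  rw [h10]
  exact hPle (Ideal.mem_span_singleton_self _)

/-- the Frobenius elements at a given prime -/
theorem frob_at (v : HeightOneSpectrum (𝓞 K)) (Q : Ideal (OB K)) (hQ : Q.IsMaximal)
    (hv : Q.comap (algebraMap (𝓞 K) (OB K)) = v.asIdeal) :
    ∃ F : GK K, ∀ x : OB K, F • x - x ^ Ideal.absNorm v.asIdeal ∈ Q := by
  have : SMulCommClass (GK K) (𝓞 K) (𝓞 (AlgebraicClosure K)) := smulComm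
  have : Algebra.IsInvariant (𝓞 K) (𝓞 (AlgebraicClosure K)) (GK K) := isInv
  let _ : TopologicalSpace (𝓞 (AlgebraicClosure K)) := ⊥
  have : DiscreteTopology (𝓞 (AlgebraicClosure K)) := ⟨rfl⟩
  have : ContinuousSMul (GK K) (𝓞 (AlgebraicClosure K)) := by
    rw [continuousSMul_iff_stabilizer_isOpen]
    intro x
    have h1 := stabilizer_isOpen_of_isIntegral (K := K) (x : AlgebraicClosure K)
    convert h1 using 2
    ext g
    rw [MulAction.mem_stabilizer_iff, MulAction.mem_stabilizer_iff]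
    constructor
    · intro h
      exact congrArg (fun z : (𝓞 (AlgebraicClosure K)) => (z : AlgebraicClosure K)) h
    · intro h
      exact RingOfIntegers.ext h
  obtain ⟨σ, Q', hQm', hQv', hQ'⟩ := exists_frob v
  obtain ⟨ρ, hρ⟩ := Algebra.IsInvariant.exists_smul_of_under_eq_of_profinite (A := 𝓞 K)
    (G := GK K) Q' Q (hQv'.trans hv.symm)
  have hρ' : Q = tr ρ Q' := by
    rw [hρ]
    ext x
    rw [mem_tr]
    exact Ideal.mem_pointwise_smul_iff_inv_smul_mem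
  refine ⟨ρ * σ * ρ⁻¹, fun x => ?_⟩
  rw [hρ']
  exact frob_conj v σ ρ Q' hQ' x

theorem frob_inert {v : HeightOneSpectrum (𝓞 K)} {Q : Ideal (OB K)} (hQ : Q.IsMaximal) {F ι : GK K}
    (hF : ∀ x : OB K, F • x - x ^ Ideal.absNorm v.asIdeal ∈ Q) (hι : ι ∈ Ine Q) (x : OB K) :
    (F * ι) • x - x ^ Ideal.absNorm v.asIdeal ∈ Q := by
  have h0 : Ideal.absNorm v.asIdeal ≠ 0 := by
    rw [Ne, Ideal.absNorm_eq_zero_iff]
    exact v.ne_bot
  have h1 : ∀ y ∈ Q, F • y ∈ Q := by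
    intro y hy
    have h2 := Q.add_mem (hF y) (Q.pow_mem_of_mem hy _ (Nat.pos_of_ne_zero h0))
    rwa [sub_add_cancel] at h2
  have h3 : (F * ι) • x - x ^ Ideal.absNorm v.asIdeal =
      F • (ι • x - x) + (F • x - x ^ Ideal.absNorm v.asIdeal) := by
    rw [smul_sub, smul_smul]
    ring
  rw [h3]
  exact Q.add_mem (h1 _ (hι x)) (hF x)

theorem ne_zero_val {q : ℕ} {s : K} {t : ℤ_[2]} (hq : 0 < q) (ht : t ^ 2 = -(q : ℤ_[2]))
    {A B : ℤ} {β : 𝓞 K} (hβ0 : β ≠ 0) (hAB : (β : K) = A + B * s) : (A : ℤ_[2]) - B * t ≠ 0 := by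
  intro h
  have h1 : ((A ^ 2 + q * B ^ 2 : ℤ) : ℤ_[2]) = 0 := by
    push_cast
    linear_combination ((A : ℤ_[2]) + B * t) * h + (B : ℤ_[2]) ^ 2 * ht
  have h2 : A ^ 2 + q * B ^ 2 = 0 := by exact_mod_cast h1
  have hq' : (0 : ℤ) < q := by exact_mod_cast hq
  have hA : A = 0 := by
    by_contra hA
    have : 0 < A ^ 2 := by positivity
    have : 0 ≤ (q : ℤ) * B ^ 2 := by positivity
    omega
  have hB : B = 0 := by
    by_contra hB
    have : 0 ≤ A ^ 2 := by positivity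
    have : 0 < (q : ℤ) * B ^ 2 := by positivity
    omega
  apply hβ0
  apply RingOfIntegers.ext
  rw [hAB, hA, hB]
  simp

/-- data at a place outside `2 q D` -/
theorem place (hCLS : S_CLS) (hINT : S_INT) {q : ℕ} {s : K} (hq : q.Prime) (hq8 : q % 8 = 7)
    (hs : s ^ 2 = -(q : K)) (hK : Module.finrank ℚ K = 2) (v : HeightOneSpectrum (𝓞 K))
    (h2 : (2 : 𝓞 K) ∉ v.asIdeal) : ∃ (n : ℕ) (A B : ℤ) (β : 𝓞 K), Odd n ∧ β ≠ 0 ∧
      v.asIdeal ^ n = Ideal.span {β} ∧ (β : K) = A + B * s := by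
  obtain ⟨n, β, hn, hβ⟩ := hCLS K q s hq (by omega) hs hK v.asIdeal v.ne_bot
  obtain ⟨A, B, hAB⟩ := hINT K q s hq hq8 hs hK v n β h2 hβ
  refine ⟨n, A, B, β, hn, ?_, hβ, hAB⟩
  rintro rfl
  have h3 : v.asIdeal ^ n = ⊥ := by rw [hβ]; simp
  exact v.ne_bot (pow_eq_zero_iff (n := n) (by rintro rfl; simp at hn) |>.1 h3)

theorem unr (hCLS : S_CLS) (hINT : S_INT) {q D i : ℕ} {s : K} {t : ℤ_[2]}
    {χ : GK K →* ℤ_[2]ˣ} (hq : q.Prime) (hq8 : q % 8 = 7)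
    (hs : s ^ 2 = -(q : K)) (hK : Module.finrank ℚ K = 2) (ht : t ^ 2 = -(q : ℤ_[2]))
    (hw : IsWeight q D i s t χ) : Unr q D χ := by
  intro Q hQ hQD σ hσ
  have hmax : (Q.comap (algebraMap (𝓞 K) (OB K))).IsMaximal :=
    Ideal.isMaximal_comap_of_isIntegral_of_isMaximal (R := 𝓞 K) (S := OB K) Q
  let v : HeightOneSpectrum (𝓞 K) := ⟨Q.comap (algebraMap (𝓞 K) (OB K)), hmax.isPrime,
    Ring.ne_bot_of_isMaximal_of_not_isField hmax (RingOfIntegers.not_isField K)⟩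
  have hv : Q.comap (algebraMap (𝓞 K) (OB K)) = v.asIdeal := rfl
  have hvD : ((2 * q * D : ℕ) : 𝓞 K) ∉ v.asIdeal := by
    intro h
    apply hQD
    have h1 : algebraMap (𝓞 K) (OB K) ((2 * q * D : ℕ) : 𝓞 K) ∈ Q := h
    rwa [map_natCast] at h1
  have h2v : (2 : 𝓞 K) ∉ v.asIdeal := by
    have h1 := not_mem_of_dvd (m := 2) (Dvd.intro (q * D) (by ring)) hvD
    exact_mod_cast h1
  obtain ⟨n, A, B, β, hn, hβ0, hβ, hAB⟩ := place hCLS hINT hq hq8 hs hK v h2v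
  obtain ⟨F, hF⟩ := frob_at v Q hQ hv
  have h3 := hw v F n A B β hvD ⟨Q, hQ, hv, hF⟩ hn hβ hAB
  have h4 := hw v (F * σ) n A B β hvD ⟨Q, hQ, hv, frob_inert hQ hF hσ⟩ hn hβ hAB
  have h5 : ((A : ℤ_[2]) - B * t) ^ i ≠ 0 := pow_ne_zero _ (ne_zero_val hq.pos ht hβ0 hAB)
  have h6 := mul_right_cancel₀ h5 (h3.trans h4.symm)
  have h7 : (χ F) ^ n = (χ (F * σ)) ^ n := by
    apply Units.ext
    rw [Units.val_pow_eq_pow_val, Units.val_pow_eq_pow_val]
    exact h6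
  rw [map_mul, mul_pow] at h7
  exact tors hn (mul_eq_left.1 h7.symm)

theorem odd_sq4 {z : ℤ} (h : Odd z) : ((z : ℤ) : ZMod 4) ^ 2 = 1 := by
  obtain ⟨k, rfl⟩ := h
  have h4 : (4 : ZMod 4) = 0 := by decide
  push_cast
  linear_combination (k ^ 2 + k : ZMod 4) * h4

/-- the value of the character modulo four -/
theorem chi_mod {q D i : ℕ} {t : ℤ_[2]} (hq8 : q % 8 = 7) (ht3 : (4 : ℤ_[2]) ∣ t - 3)
    {A B : ℤ} (hodd : Odd (A + B)) {n : ℕ} (hn : Odd n) {x : ℤ_[2]} (hx : IsUnit x)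
    (h : x ^ n * ((A : ℤ_[2]) - B * t) ^ i =
      ((jacobiSym A q * jacobiSym ((-1) ^ i * D) (A ^ 2 + q * B ^ 2).natAbs : ℤ) : ℤ_[2]) *
        ((A : ℤ_[2]) + B * t) ^ (i + 1)) {e : ℤ}
    (he : (4 : ℤ_[2]) ∣ (e : ℤ_[2]) -
      ((jacobiSym A q * jacobiSym D (A ^ 2 + q * B ^ 2).natAbs : ℤ) : ℤ_[2]) *
        ((A : ℤ_[2]) + B * t)) : r4 x = (e : ZMod 4) := by
  have h4 : (4 : ZMod 4) = 0 := by decide
  have ht : r4 t = 3 := by
    have h1 := r4_eq_zero.2 ht3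
    rw [map_sub, sub_eq_zero] at h1
    rw [h1, map_ofNat]
  have hqz : (q : ZMod 4) = 3 := by
    have h1 : ((q : ℕ) : ZMod 4) = ((q % 4 : ℕ) : ZMod 4) := by simp
    rw [h1, show q % 4 = 3 by omega]
    rfl
  set N : ℕ := (A ^ 2 + q * B ^ 2).natAbs with hN
  have hN0 : (N : ℤ) = A ^ 2 + q * B ^ 2 := by
    rw [hN, Int.natCast_natAbs, abs_of_nonneg (by positivity)]
  have hNodd : Odd N := by
    rw [hN, Int.natAbs_odd]
    obtain ⟨k, hk⟩ := hodd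
    obtain ⟨m, hm⟩ : ∃ m : ℕ, q = 8 * m + 7 := ⟨q / 8, by omega⟩
    have h1 : A = 2 * k + 1 - B := by omega
    refine ⟨2 * k ^ 2 + 2 * k - (2 * k + 1) * B + 4 * B ^ 2 + 4 * m * B ^ 2, ?_⟩
    rw [h1, hm]
    push_cast
    ring
  have hNz : ((N : ℕ) : ZMod 4) = ((A + B : ℤ) : ZMod 4) * ((A - B : ℤ) : ZMod 4) := by
    have h1 : ((N : ℕ) : ZMod 4) = ((A ^ 2 + q * B ^ 2 : ℤ) : ZMod 4) := by
      rw [← hN0, Int.cast_natCast]
    rw [h1]
    push_cast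
    rw [hqz]
    linear_combination (B : ZMod 4) ^ 2 * h4
  have ha : r4 ((A : ℤ_[2]) + B * t) = ((A - B : ℤ) : ZMod 4) := by
    rw [map_add, map_mul, map_intCast, map_intCast, ht]
    push_cast
    linear_combination (B : ZMod 4) * h4
  have hb : r4 ((A : ℤ_[2]) - B * t) = ((A + B : ℤ) : ZMod 4) := by
    rw [map_sub, map_mul, map_intCast, map_intCast, ht]
    push_cast
    linear_combination (-(B : ZMod 4)) * h4
  have ha2 : ((A - B : ℤ) : ZMod 4) ^ 2 = 1 := odd_sq4 (by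
    obtain ⟨k, hk⟩ := hodd
    exact ⟨k - B, by omega⟩)
  have hb2 : ((A + B : ℤ) : ZMod 4) ^ 2 = 1 := odd_sq4 hodd
  have hj : jacobiSym ((-1) ^ i * D) N = jacobiSym (-1) N ^ i * jacobiSym D N := by
    rw [jacobiSym.mul_left, jacobiSym.pow_left]
  have h1 := congrArg r4 h
  rw [hj, map_mul, map_mul, map_pow, map_pow, map_pow, map_intCast, ha, hb,
    zmod4_pow (r4_sq hx) hn] at h1
  push_cast at h1
  rw [jac_neg hNodd, hNz] at h1
  have h2 := r4_eq_zero.2 he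
  rw [map_sub, map_mul, map_intCast, map_intCast, ha, sub_eq_zero] at h2
  rw [h2]
  push_cast at h1 ha2 hb2 ⊢
  set a : ZMod 4 := (A : ZMod 4) - B
  set b : ZMod 4 := (A : ZMod 4) + B
  set j1 : ZMod 4 := ((jacobiSym A q : ℤ) : ZMod 4)
  set j2 : ZMod 4 := ((jacobiSym D N : ℤ) : ZMod 4)
  have hbi : b ^ i * b ^ i = 1 := by rw [← mul_pow, ← sq, hb2, one_pow]
  have hai : a ^ i * a ^ i = 1 := by rw [← mul_pow, ← sq, ha2, one_pow]
  calc r4 x = r4 x * b ^ i * b ^ i := by rw [mul_assoc, hbi, mul_one]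
    _ = j1 * j2 * a * (a ^ i * a ^ i) * (b ^ i * b ^ i) := by
        rw [h1, mul_pow]
        ring
    _ = j1 * j2 * a := by rw [hai, hbi, mul_one, mul_one]

theorem odd_norm {v : HeightOneSpectrum (𝓞 K)} (h2 : (2 : 𝓞 K) ∉ v.asIdeal) (x : 𝓞 K)
    (hx : x ∉ v.asIdeal) : Odd (Ideal.absNorm v.asIdeal) ∧ ∃ e : ℤ, (e = 1 ∨ e = -1) ∧
      x ^ ((Ideal.absNorm v.asIdeal - 1) / 2) - (e : 𝓞 K) ∈ v.asIdeal := by
  have hm : v.asIdeal.IsMaximal := v.isMaximal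
  let _ : Field (𝓞 K ⧸ v.asIdeal) := Ideal.Quotient.field v.asIdeal
  have : Finite (𝓞 K ⧸ v.asIdeal) := Ideal.finiteQuotientOfFreeOfNeBot v.asIdeal v.ne_bot
  let _ : Fintype (𝓞 K ⧸ v.asIdeal) := Fintype.ofFinite _
  have hcard : Ideal.absNorm v.asIdeal = Fintype.card (𝓞 K ⧸ v.asIdeal) := by
    rw [Ideal.absNorm_apply, Submodule.cardQuot_apply, Nat.card_eq_fintype_card]
  have hchar : ringChar (𝓞 K ⧸ v.asIdeal) ≠ 2 := by
    intro h
    apply h2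
    rw [← Ideal.Quotient.eq_zero_iff_mem, map_ofNat]
    have h3 := ringChar.Nat.cast_ringChar (R := 𝓞 K ⧸ v.asIdeal)
    rw [h] at h3
    exact_mod_cast h3
  have hodd : Fintype.card (𝓞 K ⧸ v.asIdeal) % 2 = 1 := FiniteField.odd_card_of_char_ne_two hchar
  have hx0 : Ideal.Quotient.mk v.asIdeal x ≠ 0 := by
    rwa [Ne, Ideal.Quotient.eq_zero_iff_mem]
  have hexp : (Ideal.absNorm v.asIdeal - 1) / 2 = Fintype.card (𝓞 K ⧸ v.asIdeal) / 2 := by
    rw [hcard]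
    omega
  refine ⟨by rw [hcard, Nat.odd_iff]; exact hodd, ?_⟩
  rcases FiniteField.pow_dichotomy hchar hx0 with h3 | h3
  · refine ⟨1, Or.inl rfl, ?_⟩
    rw [← Ideal.Quotient.eq_zero_iff_mem, map_sub, map_pow, hexp, h3, map_intCast]
    simp
  · refine ⟨-1, Or.inr rfl, ?_⟩
    rw [← Ideal.Quotient.eq_zero_iff_mem, map_sub, map_pow, hexp, h3, map_intCast]
    simp

theorem res_frob (hCLS : S_CLS) (hINT : S_INT) (hQR : S_QR) (hPF : S_PF) (hH1 : S_H1)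
    (hH2 : S_H2) {q D i : ℕ} {s : K} {t : ℤ_[2]} {χ : GK K →* ℤ_[2]ˣ} (hq : q.Prime)
    (hq8 : q % 8 = 7) (hD : Cl q D) (hs : s ^ 2 = -(q : K)) (hK : Module.finrank ℚ K = 2)
    (ht : t ^ 2 = -(q : ℤ_[2])) (ht3 : (4 : ℤ_[2]) ∣ t - 3) (hw : IsWeight q D i s t χ)
    {v : HeightOneSpectrum (𝓞 K)} (hvD : ((2 * q * D : ℕ) : 𝓞 K) ∉ v.asIdeal) {σ : GK K}
    (hσ : IsFrob v σ) {y : AlgebraicClosure K}
    (hy : y ^ 2 = algebraMap K (AlgebraicClosure K) (D * s)) :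
    σ y = y ↔ ‖val χ σ - 1‖ ≤ 1 / 4 := by
  have h2v : (2 : 𝓞 K) ∉ v.asIdeal := by
    have h1 := not_mem_of_dvd (m := 2) (Dvd.intro (q * D) (by ring)) hvD
    exact_mod_cast h1
  have hqv : (q : 𝓞 K) ∉ v.asIdeal := not_mem_of_dvd (Dvd.intro (2 * D) (by ring)) hvD
  have hDv : (D : 𝓞 K) ∉ v.asIdeal := not_mem_of_dvd (Dvd.intro (2 * q) (by ring)) hvD
  obtain ⟨n, A, B, β, hn, hβ0, hβ, hAB⟩ := place hCLS hINT hq hq8 hs hK v h2v
  have hodd := odd_add hq8 hs h2v hβ hAB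
  have hsI : IsIntegral ℤ s := by
    apply IsIntegral.of_pow (n := 2) two_pos
    rw [hs]
    have h1 : IsIntegral ℤ (algebraMap ℤ K (-(q : ℤ))) := isIntegral_algebraMap
    simpa using h1
  let S : 𝓞 K := ⟨s, hsI⟩
  have hS : (S : K) = s := rfl
  have hDS : (D : 𝓞 K) * S ∉ v.asIdeal := by
    intro h
    rcases v.isPrime.mem_or_mem h with h1 | h1
    · exact hDv h1
    · apply hqv
      have h3 : (q : 𝓞 K) = -(S * S) := by
        apply RingOfIntegers.ext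
        change algebraMap (𝓞 K) K (q : 𝓞 K) = algebraMap (𝓞 K) K (-(S * S))
        rw [map_natCast, map_neg, map_mul]
        change (q : K) = -(s * s)
        linear_combination hs
      rw [h3]
      exact neg_mem (v.asIdeal.mul_mem_left _ h1)
  obtain ⟨hNodd, e, he, hev⟩ := odd_norm h2v _ hDS
  have hqr := hQR hPF hH1 hH2 K q D s t hq hq8 hD hs hK ht ht3 v n A B β S e hvD hn hβ hAB hS he hev
  have hwt := hw v σ n A B β hvD hσ hn hβ hAB
  have hr := chi_mod hq8 ht3 hodd hn (χ σ).isUnit hwt hqr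
  obtain ⟨Q, hQ, hQv, hF⟩ := hσ
  -- the right side
  have hR : ‖val χ σ - 1‖ ≤ 1 / 4 ↔ e = 1 := by
    have h1 : val χ σ - 1 = (((χ σ : ℤ_[2]) - 1 : ℤ_[2]) : ℚ_[2]) := by
      rw [PadicInt.coe_sub, PadicInt.coe_one]
      rfl
    rw [h1, ← PadicInt.norm_def, r4_norm, map_sub, map_one, hr, sub_eq_zero]
    constructor
    · intro h3
      rcases he with he | he
      · exact he
      · exfalso
        rw [he] at h3
        revert h3
        decide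
    · intro h3
      rw [h3]
      rfl
  rw [hR]
  -- the left side
  have hyI : IsIntegral ℤ y := by
    apply IsIntegral.of_pow (n := 2) two_pos
    rw [hy]
    have h1 : (algebraMap K (AlgebraicClosure K)) (D * s) =
        algebraMap K (AlgebraicClosure K) (((D : 𝓞 K) * S : 𝓞 K) : K) := by
      congr 1
    rw [h1]
    exact ((D : 𝓞 K) * S).2.algebraMap
  let Y : OB K := ⟨y, hyI⟩
  have hY2 : Y ^ 2 = algebraMap (𝓞 K) (OB K) ((D : 𝓞 K) * S) := by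
    apply RingOfIntegers.ext
    change (algebraMap (OB K) (AlgebraicClosure K)) (Y ^ 2) = _
    rw [map_pow]
    change y ^ 2 = _
    rw [hy]
    change algebraMap K (AlgebraicClosure K) (D * s) =
      algebraMap K (AlgebraicClosure K) (algebraMap (𝓞 K) K ((D : 𝓞 K) * S))
    rw [map_mul (algebraMap (𝓞 K) K), map_natCast]
    rfl
  have hYQ : Y ∉ Q := by
    intro h
    apply hDS
    rw [← hQv, Ideal.mem_comap, ← hY2]
    exact Q.pow_mem_of_mem h 2 two_pos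
  have h2Q : (2 : OB K) ∉ Q := by
    intro h
    apply h2v
    rw [← hQv, Ideal.mem_comap, map_ofNat]
    exact h
  have hYN : Y ^ Ideal.absNorm v.asIdeal = Y * algebraMap (𝓞 K) (OB K)
      (((D : 𝓞 K) * S) ^ ((Ideal.absNorm v.asIdeal - 1) / 2)) := by
    obtain ⟨k, hk⟩ := hNodd
    rw [hk, show (2 * k + 1 - 1) / 2 = k by omega, map_pow, ← hY2, ← pow_mul, pow_succ]
    ring
  have hcQ : algebraMap (𝓞 K) (OB K)
      (((D : 𝓞 K) * S) ^ ((Ideal.absNorm v.asIdeal - 1) / 2)) - (e : OB K) ∈ Q := by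
    have h1 : ((D : 𝓞 K) * S) ^ ((Ideal.absNorm v.asIdeal - 1) / 2) - (e : 𝓞 K) ∈
        Q.comap (algebraMap (𝓞 K) (OB K)) := by
      rw [hQv]
      exact hev
    rw [Ideal.mem_comap, map_sub, map_intCast] at h1
    exact h1
  have hkey : σ • Y - e * Y ∈ Q := by
    have h1 := Q.add_mem (hF Y) (Q.mul_mem_left Y hcQ)
    rw [hYN] at h1
    have h3 : σ • Y - e * Y = σ • Y - Y * algebraMap (𝓞 K) (OB K)
      (((D : 𝓞 K) * S) ^ ((Ideal.absNorm v.asIdeal - 1) / 2)) + Y * (algebraMap (𝓞 K) (OB K)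
      (((D : 𝓞 K) * S) ^ ((Ideal.absNorm v.asIdeal - 1) / 2)) - (e : OB K)) := by ring
    rw [h3]
    exact h1
  have hsig : (σ y) ^ 2 = y ^ 2 := by
    rw [← map_pow, hy]
    exact σ.commutes _
  constructor
  · intro h
    have h1 : σ • Y = Y := RingOfIntegers.ext h
    rw [h1] at hkey
    rcases he with he | he
    · exact he
    · exfalso
      rw [he] at hkey
      have h3 : Y - ((-1 : ℤ) : OB K) * Y = 2 * Y := by push_cast; ring
      rw [h3] at hkey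
      rcases hQ.isPrime.mem_or_mem hkey with h4 | h4
      · exact h2Q h4
      · exact hYQ h4
  · intro h
    rcases sq_eq_sq_iff_eq_or_eq_neg.1 hsig with h1 | h1
    · exact h1
    · exfalso
      have h3 : σ • Y = -Y := RingOfIntegers.ext h1
      rw [h3, h] at hkey
      have h4 : -Y - ((1 : ℤ) : OB K) * Y = -(2 * Y) := by push_cast; ring
      rw [h4, neg_mem_iff] at hkey
      rcases hQ.isPrime.mem_or_mem hkey with h4 | h4
      · exact h2Q h4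
      · exact hYQ h4

theorem res_closed {χ : GK K →* ℤ_[2]ˣ} (hχ : Continuous χ) (y : AlgebraicClosure K)
    (hy : IsIntegral K y) : IsClosed {σ : GK K | σ y = y ↔ ‖val χ σ - 1‖ ≤ 1 / 4} := by
  have h1 : IsOpen {σ : GK K | σ y = y} := stabilizer_isOpen_of_isIntegral (K := K) y
  have h1c : IsClosed {σ : GK K | σ y = y} := by
    have h2 : IsClosed ((MulAction.stabilizer (GK K) y : Subgroup (GK K)) : Set (GK K)) :=
      Subgroup.isClosed_of_isOpen _ h1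
    exact h2
  have h0 : Continuous fun σ : GK K => ((χ σ : ℤ_[2]ˣ) : ℤ_[2]) :=
    Units.continuous_val.comp hχ
  have hc : Continuous fun σ : GK K => val χ σ := continuous_subtype_val.comp h0
  have h3 : IsClopen {σ : GK K | ‖val χ σ - 1‖ ≤ 1 / 4} := by
    have h4 : IsClopen (Metric.closedBall (1 : ℚ_[2]) (1 / 4)) :=
      IsUltrametricDist.isClopen_closedBall _ (by norm_num)
    have h5 := h4.preimage hc
    have h6 : {σ : GK K | ‖val χ σ - 1‖ ≤ 1 / 4} =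
        (fun σ : GK K => val χ σ) ⁻¹' Metric.closedBall (1 : ℚ_[2]) (1 / 4) := by
      ext σ
      rw [Set.mem_ofPred_eq, Set.mem_preimage, mem_closedBall_iff_norm]
    rw [h6]
    exact h5
  have h7 : {σ : GK K | σ y = y ↔ ‖val χ σ - 1‖ ≤ 1 / 4} =
      ({σ : GK K | σ y = y} ∩ {σ : GK K | ‖val χ σ - 1‖ ≤ 1 / 4}) ∪
      ({σ : GK K | σ y = y}ᶜ ∩ {σ : GK K | ‖val χ σ - 1‖ ≤ 1 / 4}ᶜ) := by
    ext σ
    simp only [Set.mem_ofPred_eq, Set.mem_union, Set.mem_inter_iff, Set.mem_compl_iff]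
    tauto
  rw [h7]
  exact (h1c.inter h3.isClosed).union (h1.isClosed_compl.inter h3.isOpen.isClosed_compl)

theorem fin_bad {m : ℕ} (hm : m ≠ 0) : {v : HeightOneSpectrum (𝓞 K) | (m : 𝓞 K) ∈ v.asIdeal}.Finite := by
  have h1 : Ideal.span {(m : 𝓞 K)} ≠ 0 := by
    rw [Ne, Ideal.zero_eq_bot, Ideal.span_singleton_eq_bot]
    exact_mod_cast hm
  refine (Ideal.finite_factors h1).subset fun v hv => ?_
  rw [Set.mem_ofPred_eq, Ideal.dvd_span_singleton]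
  exact hv

end

theorem t_WTJ : S_WTJ := by
  intro hCLS hINT hQR hPF hH1 hH2 K _ _ q D i s t χ hq hq8 hD hs hK ht ht3 hχ hw
  refine ⟨unr hCLS hINT hq hq8 hs hK ht hw, fun y hy σ => ?_⟩
  have hm : 2 * q * D ≠ 0 :=
    mul_ne_zero (mul_ne_zero two_ne_zero hq.ne_zero) hD.sqf.ne_zero
  have hd := Pool.Agent.Q15.GR.frob_dense (K := K) _ (fin_bad (K := K) hm)
  have hyI : IsIntegral K y := Algebra.IsIntegral.isIntegral y
  have hsub : {σ : GK K | ∃ v ∉ {v : HeightOneSpectrum (𝓞 K) |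
      ((2 * q * D : ℕ) : 𝓞 K) ∈ v.asIdeal}, IsFrob v σ} ⊆
      {σ : GK K | σ y = y ↔ ‖val χ σ - 1‖ ≤ 1 / 4} := by
    rintro τ ⟨v, hv, hτ⟩
    exact res_frob hCLS hINT hQR hPF hH1 hH2 hq hq8 hD hs hK ht ht3 hw hv hτ hy
  exact (res_closed hχ y hyI).closure_subset_iff.2 hsub (hd σ)

end Pool.Agent.Q149.BKC
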